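import Mathlib
import Pool.Agent.TH377.IG.Bc1
import Pool.Agent.TH178.HI.FD

/-!
The field of constants of a Galois extension.
-/

set_option autoImplicit false

namespace Pool.Agent.Y140.HD

open Polynomial

/-- Algebraic elements of the fraction field of `κ[X]` are constants. -/
theorem const_frac {κ E : Type} [Field κ] [Field E] [Algebra κ[X] E] [IsFractionRing κ[X] E]
    [Algebra κ E] [IsScalarTower κ κ[X] E] (w : E) (h : IsAlgebraic κ w) :
    w ∈ Set.range (algebraMap κ E) := by
  have hi2 : IsIntegral κ[X] w := h.isIntegral.tower_top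
  obtain ⟨p, rfl⟩ := IsIntegrallyClosed.isIntegral_iff.1 hi2
  obtain ⟨f, hf0, hf⟩ := h
  rw [aeval_algebraMap_apply] at hf
  have h2 : aeval p f = 0 := (IsFractionRing.injective κ[X] E) (by
    rw [hf, map_zero])
  have h3 : f.comp p = 0 := h2
  rcases comp_eq_zero_iff.1 h3 with h0 | ⟨_, hp⟩
  · exact absurd h0 hf0
  · refine ⟨p.coeff 0, ?_⟩
    conv_rhs => rw [hp]
    rw [IsScalarTower.algebraMap_apply κ κ[X] E]
    rfl

/-- The field of constants of a Galois extension is Galois over the field of constants of the
base. -/
theorem const_galois {K E N : Type} [Field K] [Field E] [Field N] [Algebra K E] [Algebra E N]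
    [Algebra K N] [IsScalarTower K E N] [IsGalois E N]
    (hreg : ∀ y : E, IsAlgebraic K y → y ∈ Set.range (algebraMap K E)) :
    IsGalois K (algebraicClosure K N) := by
  have hmin : ∀ y : algebraicClosure K N, minpoly K y = minpoly K (y : N) := fun y =>
    (minpoly.algebraMap_eq (algebraMap (algebraicClosure K N) N).injective y).symm
  have halg : ∀ y : algebraicClosure K N, IsIntegral K (y : N) := fun y =>
    (mem_algebraicClosure_iff.1 y.2).isIntegral
  have hsep : Algebra.IsSeparable K (algebraicClosure K N) := by
    constructor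
    intro y
    rw [IsSeparable, hmin]
    have h1 : (minpoly E (y : N)).Separable := Algebra.IsSeparable.isSeparable E (y : N)
    rw [Pool.Agent.TH377.IG.minpoly_reg hreg _ (halg y), separable_map] at h1
    exact h1
  have hnorm : Normal K (algebraicClosure K N) := by
    rw [normal_iff]
    intro y
    refine ⟨isAlgebraic_iff_isIntegral.1 (Algebra.IsAlgebraic.isAlgebraic y), ?_⟩
    apply Splits.algebraicClosure
    rw [hmin, IsScalarTower.algebraMap_eq K E N, ← Polynomial.map_map,
      ← Pool.Agent.TH377.IG.minpoly_reg hreg _ (halg y)]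
    exact Normal.splits inferInstance (y : N)
  exact ⟨⟩

end Pool.Agent.Y140.HD
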