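import Mathlib
import Pool.Agent.TH377.IG.FracTwo
import Pool.Agent.H391R2.HitMulti

/-!
`K(t)(s)` as the fraction field of a polynomial ring in two variables; clearing denominators.
-/

set_option autoImplicit false

namespace Pool.Agent.Y140.HD

open Polynomial
open Pool.Agent.TH377.IG (clear_den)

/-- Scaling the roots of a monic polynomial over `K[T]` to make it integral over `κ[t][T]`. -/
theorem clear_scale {κ K : Type} [Field κ] [Field K] [Algebra κ[X] K] [IsFractionRing κ[X] K]
    (f : K[X][X]) (hf : f.Monic) :
    ∃ (δ : κ[X]) (F : κ[X][X][X]), δ ≠ 0 ∧ F.Monic ∧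
      F.map (mapRingHom (algebraMap κ[X] K)) = scaleRoots f (C (algebraMap κ[X] K δ)) := by
  classical
  set α : κ[X] →+* K := algebraMap κ[X] K with hαdef
  set φ : κ[X][X] →+* K[X] := mapRingHom α with hφ
  have hclear : ∀ j, ∃ c : κ[X], c ≠ 0 ∧ C (α c) * f.coeff j ∈ φ.range := by
    intro j
    obtain ⟨c, P, hc, hP⟩ := Pool.Agent.H391R2.exists_clear (R := κ[X]) (f.coeff j)
    refine ⟨c, hc, P, ?_⟩
    rw [hφ, coe_mapRingHom]
    exact hP
  choose c hc0 hc using hclear
  set δ : κ[X] := ∏ j ∈ Finset.range (f.natDegree), c j with hδ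
  have hδ0 : δ ≠ 0 := Finset.prod_ne_zero_iff.2 fun j _ => hc0 j
  have hCint : ∀ m : κ[X], C (α m) ∈ φ.range := fun m => ⟨C m, by simp [hφ]⟩
  have hlift : scaleRoots f (C (α δ)) ∈ lifts φ := by
    rw [lifts_iff_coeff_lifts]
    intro j
    rw [coeff_scaleRoots]
    change _ ∈ φ.range
    rcases lt_trichotomy j f.natDegree with hj | hj | hj
    · have h1 : f.coeff j * C (α δ) ^ (f.natDegree - j) =
        (C (α (∏ k ∈ (Finset.range f.natDegree).erase j, c k))) *
          (C (α (c j)) * f.coeff j) * C (α δ) ^ (f.natDegree - j - 1) := by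
        have h2 : α δ = α (∏ k ∈ (Finset.range f.natDegree).erase j, c k) * α (c j) := by
          rw [hδ, ← Finset.prod_erase_mul _ _ (Finset.mem_range.2 hj), map_mul]
        have h3 : C (α δ) ^ (f.natDegree - j) =
            C (α δ) * C (α δ) ^ (f.natDegree - j - 1) := by
          rw [← pow_succ']; congr 1; omega
        have h4 : C (α δ) = C (α (∏ k ∈ (Finset.range f.natDegree).erase j, c k)) *
            C (α (c j)) := by rw [← C_mul, ← h2]
        rw [h3]
        nth_rewrite 1 [h4]
        ring
      rw [h1]
      exact φ.range.mul_mem (φ.range.mul_mem (hCint _) (hc j)) (φ.range.pow_mem (hCint δ) _)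
    · rw [hj, hf.coeff_natDegree, Nat.sub_self, pow_zero, mul_one]
      exact φ.range.one_mem
    · rw [coeff_eq_zero_of_natDegree_lt hj, zero_mul]
      exact φ.range.zero_mem
  obtain ⟨F, hF, -, hFm⟩ := lifts_and_natDegree_eq_and_monic hlift
    ((monic_scaleRoots_iff _).2 hf)
  exact ⟨δ, F, hδ0, hFm, hF⟩

/-- `K(t)(s)` as the fraction field of a polynomial ring in two variables, both variables named. -/
theorem frac_two' {K k E : Type} [Field K] [Field k] [Field E] [Algebra K[X] k]
    [IsFractionRing K[X] k] [Algebra k[X] E] [IsFractionRing k[X] E] [Algebra K E]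
    (hKE : ∀ c : K, algebraMap K E c = algebraMap k[X] E (C (algebraMap K[X] k (C c)))) :
    ∃ (_ : Algebra (MvPolynomial (Option Unit) K) E)
      (_ : IsFractionRing (MvPolynomial (Option Unit) K) E),
      IsScalarTower K (MvPolynomial (Option Unit) K) E ∧
      algebraMap (MvPolynomial (Option Unit) K) E (MvPolynomial.X none) = algebraMap k[X] E X ∧
      ∀ p : K[X], algebraMap (MvPolynomial (Option Unit) K) E
        (aeval (MvPolynomial.X (some ())) p) = algebraMap k[X] E (C (algebraMap K[X] k p)) := by
  classical
  let g : MvPolynomial (Option Unit) K →ₐ[K] E := MvPolynomial.aeval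
    (fun o => o.elim (algebraMap k[X] E X) (fun _ => algebraMap k[X] E (C (algebraMap K[X] k X))))
  let e := (MvPolynomial.optionEquivLeft K Unit)
  let u : MvPolynomial Unit K →+* k :=
    (algebraMap K[X] k).comp (MvPolynomial.uniqueAlgEquiv K Unit).toAlgHom.toRingHom
  have hu : Function.Injective u := (IsFractionRing.injective K[X] k).comp
    (MvPolynomial.uniqueAlgEquiv K Unit).injective
  have huX : u (MvPolynomial.X ()) = algebraMap K[X] k X := by
    change algebraMap K[X] k (MvPolynomial.uniqueAlgEquiv K Unit (MvPolynomial.X ())) = _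
    congr 1
    exact MvPolynomial.eval₂_X _ _ _
  have huC : ∀ c, u (MvPolynomial.C c) = algebraMap K[X] k (C c) := by
    intro c
    change algebraMap K[X] k (MvPolynomial.uniqueAlgEquiv K Unit (MvPolynomial.C c)) = _
    congr 1
    exact MvPolynomial.eval₂_C _ _ _
  let h : (MvPolynomial Unit K)[X] →+* E := (algebraMap k[X] E).comp (mapRingHom u)
  have hhv : ∀ q, h q = algebraMap k[X] E (q.map u) := fun _ => rfl
  have hh : Function.Injective h := (IsFractionRing.injective k[X] E).comp
    (map_injective u hu)
  have hgh : ∀ x, g x = h (e x) := by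
    intro x
    have h1 : (g : MvPolynomial (Option Unit) K →+* E) =
        h.comp e.toAlgHom.toRingHom := by
      apply MvPolynomial.ringHom_ext
      · intro r
        change g (MvPolynomial.C r) = h (e (MvPolynomial.C r))
        rw [MvPolynomial.optionEquivLeft_C, hhv, map_C, huC, MvPolynomial.algHom_C, hKE]
      · intro i
        rcases i with _ | i
        · change g (MvPolynomial.X none) = h (e (MvPolynomial.X none))
          rw [MvPolynomial.optionEquivLeft_X_none, hhv, map_X, MvPolynomial.aeval_X]
          rfl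
        · change g (MvPolynomial.X (some i)) = h (e (MvPolynomial.X (some i)))
          rw [MvPolynomial.optionEquivLeft_X_some, hhv, map_C, huX, MvPolynomial.aeval_X]
          rfl
    exact RingHom.congr_fun h1 x
  have hg : Function.Injective g := by
    intro x y hxy
    rw [hgh, hgh] at hxy
    exact e.injective (hh hxy)
  -- every element of `k[X]` is the quotient of images
  have hquot : ∀ p : k[X], ∃ x y : MvPolynomial (Option Unit) K, y ≠ 0 ∧
      g y * algebraMap k[X] E p = g x := by
    intro p
    have hfr : IsFractionRing K[X] k := inferInstance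
    obtain ⟨P, b, hb, hP⟩ := clear_den (A := K[X]) (E := k) p
    let v : K[X] →+* MvPolynomial Unit K :=
      (MvPolynomial.uniqueAlgEquiv K Unit).symm.toAlgHom.toRingHom
    have huv : ∀ q, u (v q) = algebraMap K[X] k q := by
      intro q
      change algebraMap K[X] k (MvPolynomial.uniqueAlgEquiv K Unit
        ((MvPolynomial.uniqueAlgEquiv K Unit).symm q)) = _
      rw [AlgEquiv.apply_symm_apply]
    refine ⟨e.symm (P.map v), e.symm (C (v b)), ?_, ?_⟩
    · intro h0
      rw [map_eq_zero_iff _ e.symm.injective, C_eq_zero] at h0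
      apply hb
      apply (IsFractionRing.injective K[X] k)
      rw [← huv, h0, map_zero, map_zero]
    · rw [hgh, hgh, AlgEquiv.apply_symm_apply, AlgEquiv.apply_symm_apply, hhv, hhv, map_C, huv,
        Polynomial.map_map, ← map_mul]
      congr 1
      rw [← hP]
      congr 1
      apply RingHom.ext
      intro q
      exact (huv q).symm
  let aA : Algebra (MvPolynomial (Option Unit) K) E := (g : _ →+* E).toAlgebra
  have haA : ∀ x, algebraMap (MvPolynomial (Option Unit) K) E x = g x := fun _ => rfl
  have hf : FaithfulSMul (MvPolynomial (Option Unit) K) E :=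
    (faithfulSMul_iff_algebraMap_injective _ _).2 hg
  refine ⟨aA, IsFractionRing.of_field _ _ ?_, IsScalarTower.of_algebraMap_eq fun x => ?_, ?_, ?_⟩
  · intro z
    obtain ⟨p, q, hq, rfl⟩ := IsFractionRing.div_surjective (A := k[X]) z
    obtain ⟨x, y, hy, hxy⟩ := hquot p
    obtain ⟨x', y', hy', hxy'⟩ := hquot q
    refine ⟨x * y', y * x', ?_⟩
    have hq0 : algebraMap k[X] E q ≠ 0 := by
      rw [Ne, map_eq_zero_iff _ (IsFractionRing.injective k[X] E)]
      exact nonZeroDivisors.ne_zero hq
    have hgy : g y ≠ 0 := by rwa [Ne, map_eq_zero_iff _ hg]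
    have hgy' : g y' ≠ 0 := by rwa [Ne, map_eq_zero_iff _ hg]
    rw [haA, haA, map_mul, map_mul, ← hxy, ← hxy']
    field_simp
  · rw [haA]
    exact (g.commutes x).symm
  · rw [haA]
    exact MvPolynomial.aeval_X _ _
  · intro p
    rw [haA]
    have h1 : ((g : MvPolynomial (Option Unit) K →+* E).comp
        ((aeval (MvPolynomial.X (some ())) : K[X] →ₐ[K] MvPolynomial (Option Unit) K) :
          K[X] →+* _)) = ((algebraMap k[X] E).comp (C : k →+* k[X])).comp (algebraMap K[X] k) := by
      apply Polynomial.ringHom_ext
      · intro c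
        change g (aeval (MvPolynomial.X (some ())) (C c)) = algebraMap k[X] E
          (C (algebraMap K[X] k (C c)))
        rw [aeval_C, AlgHom.commutes, hKE]
      · change g (aeval (MvPolynomial.X (some ())) X) = algebraMap k[X] E
          (C (algebraMap K[X] k X))
        rw [aeval_X, MvPolynomial.aeval_X]
        rfl
    exact RingHom.congr_fun h1 p

end Pool.Agent.Y140.HD
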