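import Mathlib
import Pool.Agent.TH377.IG.BertB

/-!
Specialisation along a line which keeps one coordinate and avoids a hypersurface (variant of
`Pool.Agent.TH377.IG.place_line`).
-/

set_option autoImplicit false

namespace Pool.Agent.Y140.HD

open Polynomial
open scoped Pointwise
open Pool.Agent.H81R2.BT (exists_sep_bad line_surjective line_eval_zero exists_inertia_bad
  exists_point heart line)
open Pool.Agent.W200.IJ (noroot)
open Pool.Agent.TH377.IG (affc affc_injective noroot_aff spec_place)

/-- Specialisation along a line keeping the coordinate `i0`. -/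
theorem place_line' (K L : Type) [Field K] [Infinite K] [Field L] [Algebra K L]
    [FiniteDimensional K L] [IsGalois K L] (G : Type) [Group G] [Finite G]
    (α : G →* (L ≃ₐ[K] L)) (ι : Type) [Finite ι] (i0 : ι)
    (E : Type) [Field E] [Algebra (MvPolynomial ι K) E] [IsFractionRing (MvPolynomial ι K) E]
    [Algebra K E] [IsScalarTower K (MvPolynomial ι K) E]
    (F : Type) [Field F] [Algebra E F] [Algebra L F] [Algebra K F] [IsScalarTower K E F]
    [IsScalarTower K L F] [FiniteDimensional E F] [IsGalois E F]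
    [Algebra (MvPolynomial ι K) F] [IsScalarTower (MvPolynomial ι K) E F] (γ : (F ≃ₐ[E] F) ≃* G)
    (D' : MvPolynomial ι K) (hD' : D' ≠ 0)
    (hαγ : ∀ (σ : F ≃ₐ[E] F) (x : L), σ (algebraMap L F x) = algebraMap L F (α (γ σ) x))
    (hreg : ∀ y : F, IsAlgebraic L y → y ∈ Set.range (algebraMap L F)) :
    ∃ (φ : MvPolynomial ι K →ₐ[K] K[X]) (Ω' : Type) (_ : Field Ω') (_ : Algebra (RatFunc K) Ω')
      (_ : Algebra L Ω') (_ : Algebra K Ω') (_ : IsScalarTower K (RatFunc K) Ω')
      (_ : IsScalarTower K L Ω') (π : integralClosure (MvPolynomial ι K) F →+* Ω')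
      (_ : FiniteDimensional (RatFunc K) (separableClosure (RatFunc K) Ω'))
      (_ : IsGalois (RatFunc K) (separableClosure (RatFunc K) Ω'))
      (γ' : (separableClosure (RatFunc K) Ω' ≃ₐ[RatFunc K] separableClosure (RatFunc K) Ω') ≃* G),
      φ D' ≠ 0 ∧ φ (MvPolynomial.X i0) = X ∧
      (∀ a : MvPolynomial ι K, π (algebraMap _ _ a) =
        algebraMap (RatFunc K) Ω' (algebraMap K[X] (RatFunc K) (φ a))) ∧
      (∀ (x : L) (hx : algebraMap L F x ∈ integralClosure (MvPolynomial ι K) F),
        π ⟨algebraMap L F x, hx⟩ = algebraMap L Ω' x) ∧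
      (∀ (σ : separableClosure (RatFunc K) Ω' ≃ₐ[RatFunc K] separableClosure (RatFunc K) Ω')
        (c c' : integralClosure (MvPolynomial ι K) F) (τ : F ≃ₐ[E] F) (_ : γ τ = γ' σ)
        (_ : (c' : F) = τ c) (hc : π c ∈ separableClosure (RatFunc K) Ω'),
        ((σ ⟨π c, hc⟩ : separableClosure (RatFunc K) Ω') : Ω') = π c') ∧
      ∀ y ∈ separableClosure (RatFunc K) Ω', IsAlgebraic K y → ∃ x : L, algebraMap L Ω' x = y := by
  classical
  let A := MvPolynomial ι K
  have towKAF : IsScalarTower K A F := by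
    apply IsScalarTower.of_algebraMap_eq
    intro k
    rw [IsScalarTower.algebraMap_apply A E F, ← IsScalarTower.algebraMap_apply K A E,
      ← IsScalarTower.algebraMap_apply K E F]
  have hfr : IsFractionRing (integralClosure A F) F :=
    integralClosure.isFractionRing_of_finite_extension E F
  let act : MulSemiringAction (F ≃ₐ[E] F) (integralClosure A F) :=
    IsIntegralClosure.MulSemiringAction A E F (integralClosure A F)
  have hact : ∀ (g : F ≃ₐ[E] F) (c : integralClosure A F),
      ((g • c : integralClosure A F) : F) = g (c : F) :=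
    fun g c => algebraMap_galRestrict_apply A g c
  have hinv : Algebra.IsInvariant A (integralClosure A F) (F ≃ₐ[E] F) :=
    Algebra.isInvariant_of_isGalois A E F (integralClosure A F)
  have hAF : Function.Injective (algebraMap A F) := by
    rw [IsScalarTower.algebraMap_eq A E F]
    exact (algebraMap E F).injective.comp (IsFractionRing.injective A E)
  have hAC : Function.Injective (algebraMap A (integralClosure A F)) := by
    intro a b hab
    apply hAF
    exact congrArg (Subtype.val) hab
  have hfaith : FaithfulSMul A (integralClosure A F) :=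
    (faithfulSMul_iff_algebraMap_injective A _).2 hAC
  have hcomm : SMulCommClass (F ≃ₐ[E] F) A (integralClosure A F) :=
    ⟨fun g a c => map_smul (galRestrict A E F (integralClosure A F) g) a c⟩
  have hfaithG : FaithfulSMul (F ≃ₐ[E] F) (integralClosure A F) := by
    constructor
    intro g g' h
    apply (galRestrict A E F (integralClosure A F)).injective
    apply AlgEquiv.ext
    intro c
    exact h c
  -- the embedding of `L`
  have hLint : ∀ x : L, algebraMap L F x ∈ integralClosure A F := by
    intro x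
    have h1 : IsIntegral K (algebraMap L F x) :=
      (Algebra.IsIntegral.isIntegral (R := K) x).algebraMap
    exact h1.tower_top
  let ψ : L →+* integralClosure A F :=
    (algebraMap L F).codRestrict (integralClosure A F) hLint
  have hψval : ∀ x : L, ((ψ x : integralClosure A F) : F) = algebraMap L F x := fun _ => rfl
  let α' : (F ≃ₐ[E] F) →* (L ≃ₐ[K] L) := α.comp γ.toMonoidHom
  have hα' : ∀ (σ : F ≃ₐ[E] F) (x : L), σ (algebraMap L F x) = algebraMap L F (α' σ x) := hαγ
  have hψK : ∀ k : K, ψ (algebraMap K L k) =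
      algebraMap A (integralClosure A F) (algebraMap K A k) := by
    intro k
    apply Subtype.ext
    rw [hψval]
    change _ = algebraMap A F (algebraMap K A k)
    rw [← IsScalarTower.algebraMap_apply, ← IsScalarTower.algebraMap_apply]
  have hψ : ∀ (g : F ≃ₐ[E] F) (x : L), g • ψ x = ψ (α' g x) := by
    intro g x
    apply Subtype.ext
    rw [hact, hψval, hψval, hα']
  -- the elements `θ`
  have hθ : ∀ H : {H : Subgroup (F ≃ₐ[E] F) // ¬ α'.ker ≤ H}, ∃ (θ : integralClosure A F)
      (m : A[X]) (d : A), (∀ g ∈ H.1, g • θ = θ) ∧ m.Monic ∧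
      (m.map (algebraMap A (integralClosure A F))).eval θ = 0 ∧
      (∀ p : MvPolynomial ι (AlgebraicClosure K),
        (m.map (MvPolynomial.map (algebraMap K (AlgebraicClosure K)))).eval p ≠ 0) ∧
      d ≠ 0 ∧ ∀ (R : Type) [Field R] (f : A →+* R), f d ≠ 0 → (m.map f).Separable := by
    rintro ⟨H, hH⟩
    -- an element of `F`
    have h1 : ∃ (x : F) (w : F ≃ₐ[E] F), (∀ g ∈ H, g x = x) ∧ w ∈ α'.ker ∧ w x ≠ x := by
      by_contra hcon
      push Not at hcon
      apply hH
      rw [← IntermediateField.fixingSubgroup_fixedField H]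
      intro w hw
      rw [IntermediateField.mem_fixingSubgroup_iff]
      intro x hx
      rw [IntermediateField.mem_fixedField_iff] at hx
      exact hcon x w hx hw
    obtain ⟨x, w, hx, hw, hwx⟩ := h1
    have hxalg : IsAlgebraic A x := by
      rw [IsFractionRing.isAlgebraic_iff A E F]
      exact Algebra.IsAlgebraic.isAlgebraic x
    obtain ⟨a, ha, hint⟩ := hxalg.exists_integral_multiple
    have ha' : algebraMap A F a ≠ 0 := by
      intro h
      apply ha
      exact hAF (by rw [h, map_zero])
    have hgax : ∀ g : F ≃ₐ[E] F, g (a • x) = a • g x := by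
      intro g
      rw [Algebra.smul_def, map_mul, Algebra.smul_def]
      congr 1
      rw [IsScalarTower.algebraMap_apply A E F]
      exact g.commutes _
    let θ : integralClosure A F := ⟨a • x, hint⟩
    have hθint : IsIntegral A θ := Algebra.IsIntegral.isIntegral θ
    have hm1 : (minpoly A θ).map (algebraMap A E) = minpoly E (a • x) := by
      have h2 := minpoly.isIntegrallyClosed_eq_field_fractions (R := A)
        (S := integralClosure A F) E F hθint
      exact h2.symm
    obtain ⟨d, hd, hdsep⟩ := exists_sep_bad (E := E) (minpoly A θ) (by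
      rw [hm1]
      exact Algebra.IsSeparable.isSeparable E (a • x))
    refine ⟨θ, minpoly A θ, d, ?_, minpoly.monic hθint, ?_, ?_, hd, hdsep⟩
    · intro g hg
      apply Subtype.ext
      rw [hact]
      change g (a • x) = a • x
      rw [hgax, hx g hg]
    · rw [eval_map_algebraMap, minpoly.aeval]
    · intro p
      apply noroot (L := L) (E := E) (F := F) hreg α'.ker inferInstance _ (a • x) w hw _
        (minpoly A θ) hm1 p
      · intro g hg y
        rw [hα', MonoidHom.mem_ker.1 hg]
        rfl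
      · rw [hgax, Algebra.smul_def, Algebra.smul_def]
        intro h
        exact hwx (mul_left_cancel₀ ha' h)
  choose θ m d hθ1 hm hmθ hmno hd0 hdsep using hθ
  obtain ⟨D, hD0, hD⟩ := exists_inertia_bad (A := A) (C := integralClosure A F) (G := F ≃ₐ[E] F)
  let _ : Fintype {H : Subgroup (F ≃ₐ[E] F) // ¬ α'.ker ≤ H} := Fintype.ofFinite _
  -- choice of `a`
  obtain ⟨a, ha⟩ : ∃ a : ι → K, MvPolynomial.eval a
      ((D * D') * ∏ H : {H : Subgroup (F ≃ₐ[E] F) // ¬ α'.ker ≤ H}, d H) ≠ 0 := by
    by_contra hcon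
    push Not at hcon
    have h1 : (D * D') * ∏ H : {H : Subgroup (F ≃ₐ[E] F) // ¬ α'.ker ≤ H}, d H ≠ 0 :=
      mul_ne_zero (mul_ne_zero hD0 hD') (Finset.prod_ne_zero_iff.2 fun H _ => hd0 H)
    apply h1
    apply MvPolynomial.funext
    intro x
    rw [map_zero]
    exact hcon x
  rw [map_mul, map_prod] at ha
  have haD : MvPolynomial.eval a D ≠ 0 := by
    have h1 := left_ne_zero_of_mul ha
    rw [map_mul] at h1
    exact left_ne_zero_of_mul h1
  have haD' : MvPolynomial.eval a D' ≠ 0 := by
    have h1 := left_ne_zero_of_mul ha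
    rw [map_mul] at h1
    exact right_ne_zero_of_mul h1
  have had : ∀ H, MvPolynomial.eval a (d H) ≠ 0 := fun H =>
    Finset.prod_ne_zero_iff.1 (right_ne_zero_of_mul ha) H (Finset.mem_univ H)
  have hheart := fun H => heart (Kb := AlgebraicClosure K) (m H) (hm H) (hmno H) a
    (hdsep H K (MvPolynomial.eval a) (had H))
  choose e he0 he using hheart
  obtain ⟨b, hb⟩ := exists_point (K := K) (Kb := AlgebraicClosure K)
    (MvPolynomial.X i0 * ∏ H : {H : Subgroup (F ≃ₐ[E] F) // ¬ α'.ker ≤ H}, e H)
    (mul_ne_zero (MvPolynomial.X_ne_zero i0) (Finset.prod_ne_zero_iff.2 fun H _ => he0 H))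
  rw [map_mul, map_prod, MvPolynomial.eval_X] at hb
  have hbi : b i0 ≠ 0 := by
    intro h
    apply left_ne_zero_of_mul hb
    rw [h, map_zero]
  have hbe : ∀ H, MvPolynomial.eval (fun i => algebraMap K (AlgebraicClosure K) (b i)) (e H) ≠ 0 :=
    fun H => Finset.prod_ne_zero_iff.1 (right_ne_zero_of_mul hb) H (Finset.mem_univ H)
  let φ : A →ₐ[K] K[X] := (affc (a i0) (b i0)).comp (line a b)
  have hφv : ∀ x : A, φ x = affc (a i0) (b i0) (line a b x) := fun _ => rfl
  have hφX : φ (MvPolynomial.X i0) = X := by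
    rw [hφv]
    simp only [line, MvPolynomial.aeval_X]
    rw [affc, map_add, map_mul, aeval_X, ← Polynomial.algebraMap_eq, AlgHom.commutes,
      AlgHom.commutes, Polynomial.algebraMap_eq, ← mul_assoc, ← C_mul, mul_inv_cancel₀ hbi, C_1,
      one_mul, add_sub_cancel]
  have hφs : Function.Surjective φ := by
    intro p
    refine ⟨aeval (MvPolynomial.X i0) p, ?_⟩
    rw [← aeval_algHom_apply, hφX, aeval_X_left_apply]
  have hφ0 : ∀ D : A, MvPolynomial.eval a D ≠ 0 → φ D ≠ 0 := by
    intro D hD h0
    apply hD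
    rw [hφv, map_eq_zero_iff _ (affc_injective _ _ hbi)] at h0
    rw [← line_eval_zero a b, h0, eval_zero]
  obtain ⟨Ω', h1, h2, h3, h4, h5, h6, π, h7, h8, γ', h9, h10, h11, h12⟩ := spec_place α' ψ hψK hψ
    φ hφs (by
      intro Q _ hQ g hg
      apply hD Q _ g hg
      rw [hQ]
      exact hφ0 D haD) (by
      intro H hH
      refine ⟨θ ⟨H, hH⟩, m ⟨H, hH⟩, hθ1 ⟨H, hH⟩, hm ⟨H, hH⟩, hmθ ⟨H, hH⟩,
        hdsep ⟨H, hH⟩ (RatFunc K) _ ?_, ?_⟩
      · change algebraMap K[X] (RatFunc K) (φ (d ⟨H, hH⟩)) ≠ 0
        intro h0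
        exact hφ0 _ (had ⟨H, hH⟩) ((map_eq_zero_iff _ (RatFunc.algebraMap_injective K)).1 h0)
      · exact noroot_aff (m ⟨H, hH⟩) (line a b) (a i0) (b i0) hbi (he ⟨H, hH⟩ b (hbe ⟨H, hH⟩)))
  refine ⟨φ, Ω', h1, h2, h3, h4, h5, h6, π, h7, h8, γ'.trans γ, hφ0 _ haD', hφX, h9, fun x hx => h10 x, ?_, h12⟩
  intro σ c c' τ hτ hcc' hc
  rw [h11]
  congr 1
  apply Subtype.ext
  rw [hact, hcc']
  have h13 : γ' σ = τ := γ.injective hτ.symm
  rw [h13]

end Pool.Agent.Y140.HD
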