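import Mathlib
import Pool.Agent.Y140.HD.Line
import Pool.Agent.Y140.HD.Frac
import Pool.Agent.Y140.HD.Const

/-!
Hilbert irreducibility over `K(t)`, `K` infinite.
-/

set_option autoImplicit false

namespace Pool.Agent.Y140.HD

open Polynomial

theorem irred_of_conj {Q Ω ι : Type} [Field Q] [Field Ω] [Algebra Q Ω] (h : Q[X]) (hm : h.Monic)
    (R : Finset ι) (hne : R.Nonempty) (hdeg : h.natDegree = R.card) (ρ : ι → Ω)
    (hinj : ∀ i ∈ R, ∀ j ∈ R, ρ i = ρ j → i = j) (hroot : ∀ i ∈ R, aeval (ρ i) h = 0)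
    (hconj : h.Separable → ∀ i ∈ R, ∀ j ∈ R, aeval (ρ j) (minpoly Q (ρ i)) = 0) :
    Irreducible h := by
  classical
  have hdvd : ∀ q : Q[X], (∀ i ∈ R, aeval (ρ i) q = 0) →
      (∏ i ∈ R, (X - C (ρ i))) ∣ q.map (algebraMap Q Ω) := by
    intro q hq
    apply Finset.prod_dvd_of_coprime
    · intro i hi j hj hij
      apply isCoprime_X_sub_C_of_isUnit_sub
      rw [isUnit_iff_ne_zero, sub_ne_zero]
      exact fun h => hij (hinj i hi j hj h)
    · intro i hi
      rw [dvd_iff_isRoot, IsRoot.def, eval_map_algebraMap]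
      exact hq i hi
  have hpm : (∏ i ∈ R, (X - C (ρ i))).Monic := monic_prod_of_monic _ _ fun i _ => monic_X_sub_C _
  have hpd : (∏ i ∈ R, (X - C (ρ i))).natDegree = R.card := by
    rw [natDegree_prod_of_monic _ _ (fun i _ => monic_X_sub_C _)]
    simp
  have hprod : h.map (algebraMap Q Ω) = ∏ i ∈ R, (X - C (ρ i)) := by
    refine (eq_of_monic_of_dvd_of_natDegree_le hpm (hm.map _) (hdvd h hroot) ?_)
    rw [hm.natDegree_map, hpd, hdeg]
  have hsep : h.Separable := by
    rw [← separable_map (algebraMap Q Ω), hprod, separable_prod_X_sub_C_iff']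
    exact hinj
  obtain ⟨i, hi⟩ := hne
  have hint : IsIntegral Q (ρ i) := ⟨h, hm, hroot i hi⟩
  have h1 : minpoly Q (ρ i) ∣ h := minpoly.dvd Q _ (hroot i hi)
  have h2 := hdvd (minpoly Q (ρ i)) (hconj hsep i hi)
  have h3 : h.natDegree ≤ (minpoly Q (ρ i)).natDegree := by
    have h4 := natDegree_le_of_dvd h2 ((minpoly.monic hint).map _).ne_zero
    rw [hpd, (minpoly.monic hint).natDegree_map] at h4
    omega
  rw [eq_of_monic_of_dvd_of_natDegree_le (minpoly.monic hint) hm h1 h3]
  exact minpoly.irreducible hint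

theorem core {K : Type} [Field K] [Infinite K] (E N : Type) [Field E] [Algebra (RatFunc K)[X] E]
    [IsFractionRing (RatFunc K)[X] E] [Field N] [Algebra E N] [FiniteDimensional E N]
    [IsGalois E N] (f : (RatFunc K)[X][X]) (hf : f.Monic) (R : Finset N) (hne : R.Nonempty)
    (hR : f.map ((algebraMap E N).comp (algebraMap (RatFunc K)[X] E)) = ∏ α ∈ R, (X - C α))
    (htrans : ∀ α ∈ R, ∀ β ∈ R, ∃ σ : N ≃ₐ[E] N, σ α = β) (g : (RatFunc K)[X]) (hg : g ≠ 0) :
    ∃ a : RatFunc K, g.eval a ≠ 0 ∧ Irreducible (f.map (evalRingHom a)) := by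
  classical
  let aKE : Algebra K E :=
    ((algebraMap (RatFunc K)[X] E).comp ((C : RatFunc K →+* (RatFunc K)[X]).comp
      (algebraMap K (RatFunc K)))).toAlgebra
  have hKE0 : ∀ c : K, algebraMap K E c =
      algebraMap (RatFunc K)[X] E (C (algebraMap K (RatFunc K) c)) := fun _ => rfl
  have hKE : ∀ c : K, algebraMap K E c =
      algebraMap (RatFunc K)[X] E (C (algebraMap K[X] (RatFunc K) (C c))) := by
    intro c
    rw [hKE0, IsScalarTower.algebraMap_apply K K[X] (RatFunc K)]
    rfl
  obtain ⟨aAE, frAE, tKAE, hAX, hAE⟩ := frac_two' (K := K) (k := RatFunc K) (E := E) hKE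
  let A := MvPolynomial (Option Unit) K
  let aAN : Algebra A N := ((algebraMap E N).comp (algebraMap A E)).toAlgebra
  have tAEN : IsScalarTower A E N := IsScalarTower.of_algebraMap_eq fun _ => rfl
  let aKN : Algebra K N := ((algebraMap E N).comp (algebraMap K E)).toAlgebra
  have tKEN : IsScalarTower K E N := IsScalarTower.of_algebraMap_eq fun _ => rfl
  -- the constants
  let aQE : Algebra (RatFunc K) E :=
    ((algebraMap (RatFunc K)[X] E).comp (C : RatFunc K →+* (RatFunc K)[X])).toAlgebra
  have tQE : IsScalarTower (RatFunc K) (RatFunc K)[X] E := IsScalarTower.of_algebraMap_eq fun _ => rfl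
  have tKQE : IsScalarTower K (RatFunc K) E := IsScalarTower.of_algebraMap_eq fun _ => rfl
  have hregE : ∀ y : E, IsAlgebraic K y → y ∈ Set.range (algebraMap K E) := by
    intro y hy
    obtain ⟨w, rfl⟩ := const_frac (κ := RatFunc K) y
      (hy.extendScalars (algebraMap K (RatFunc K)).injective)
    rw [isAlgebraic_algebraMap_iff (algebraMap (RatFunc K) E).injective] at hy
    obtain ⟨c, rfl⟩ := const_frac (κ := K) w hy
    exact ⟨c, rfl⟩
  let L := algebraicClosure K N
  have hfin : FiniteDimensional K L := by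
    have h1 : Algebra.EssFiniteType A E := .of_isLocalization E (nonZeroDivisors A)
    have h2 : Algebra.EssFiniteType K E := .comp K A E
    have h3 : Algebra.EssFiniteType K N := .comp K E N
    exact Pool.Agent.TH178.HI.finite_closure K N
  have hgal : IsGalois K L := const_galois hregE
  have hregN : ∀ y : N, IsAlgebraic L y → y ∈ Set.range (algebraMap L N) := by
    intro y hy
    have h1 : IsAlgebraic K y := hy.restrictScalars K
    exact ⟨⟨y, mem_algebraicClosure_iff.2 h1⟩, rfl⟩
  let α₀ : (N ≃ₐ[E] N) →* (L ≃ₐ[K] L) := (AlgEquiv.restrictNormalHom (F := K) (K₁ := N) L).comp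
    (AlgEquiv.restrictScalarsHom K)
  have hα₀ : ∀ (σ : N ≃ₐ[E] N) (x : L), σ (algebraMap L N x) = algebraMap L N (α₀ σ x) :=
    fun σ x => (AlgEquiv.restrictNormal_commutes (σ.restrictScalars K) L x).symm
  -- the coordinate ring
  set α : K[X] →+* RatFunc K := algebraMap K[X] (RatFunc K) with hαdef
  have hαinj : Function.Injective α := IsFractionRing.injective _ _
  let v : K[X][X] →+* A :=
    eval₂RingHom ((aeval (MvPolynomial.X (some ())) : K[X] →ₐ[K] A) : K[X] →+* A)
      (MvPolynomial.X none)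
  have hvX : v X = MvPolynomial.X none := eval₂_X _ _
  have hvC : ∀ p, v (C p) = aeval (MvPolynomial.X (some ())) p := fun p => eval₂_C _ _
  have hv : ∀ q : K[X][X], algebraMap A E (v q) = algebraMap (RatFunc K)[X] E (q.map α) := by
    intro q
    have h1 : (algebraMap A E).comp v = (algebraMap (RatFunc K)[X] E).comp (mapRingHom α) := by
      apply Polynomial.ringHom_ext
      · intro p
        change algebraMap A E (v (C p)) = algebraMap (RatFunc K)[X] E ((C p).map α)
        rw [hvC, hAE, Polynomial.map_C]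
      · change algebraMap A E (v X) = algebraMap (RatFunc K)[X] E (X.map α)
        rw [hvX, hAX, Polynomial.map_X]
    exact RingHom.congr_fun h1 q
  obtain ⟨δ, F, hδ0, hFm, hF⟩ := clear_scale (κ := K) f hf
  set ι : (RatFunc K)[X] →+* N := (algebraMap E N).comp (algebraMap (RatFunc K)[X] E) with hι
  have hιinj : Function.Injective ι :=
    (algebraMap E N).injective.comp (IsFractionRing.injective (RatFunc K)[X] E)
  have hιv : (algebraMap A N).comp v = ι.comp (mapRingHom α) := by
    apply RingHom.ext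
    intro q
    change algebraMap E N (algebraMap A E (v q)) = _
    rw [hv]
    rfl
  have hαδ : α δ ≠ 0 := by rwa [Ne, map_eq_zero_iff α hαinj]
  set δN : N := ι (C (α δ)) with hδN
  have hδN0 : δN ≠ 0 := by
    rw [hδN, Ne, map_eq_zero_iff ι hιinj, C_eq_zero]
    exact hαδ
  have hτδ : ∀ τ : N ≃ₐ[E] N, τ δN = δN := fun τ => τ.commutes _
  have hrootN : ∀ θ ∈ R, eval₂ (algebraMap A N) (δN * θ) (F.map v) = 0 := by
    intro θ hθ
    rw [eval₂_map, hιv, ← eval₂_map, hF]
    apply scaleRoots_eval₂_eq_zero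
    rw [← eval_map, hR, eval_prod]
    exact Finset.prod_eq_zero hθ (by rw [eval_sub, eval_X, eval_C, sub_self])
  have hex : ∀ θ : N, ∃ x : integralClosure A N, θ ∈ R → (x : N) = δN * θ := by
    intro θ
    by_cases h : θ ∈ R
    · exact ⟨⟨δN * θ, F.map v, hFm.map v, hrootN θ h⟩, fun _ => rfl⟩
    · exact ⟨0, fun h' => absurd h' h⟩
  choose c hc using hex
  have hAN : Function.Injective (algebraMap A N) := by
    rw [IsScalarTower.algebraMap_eq A E N]
    exact (algebraMap E N).injective.comp (IsFractionRing.injective A E)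
  have hrootC : ∀ θ ∈ R, eval₂ (algebraMap A (integralClosure A N)) (c θ) (F.map v) = 0 := by
    intro θ hθ
    apply Subtype.val_injective
    have h1 : algebraMap (integralClosure A N) N
        (eval₂ (algebraMap A (integralClosure A N)) (c θ) (F.map v)) = 0 := by
      rw [hom_eval₂]
      have h2 : (algebraMap (integralClosure A N) N).comp (algebraMap A (integralClosure A N)) =
        algebraMap A N := rfl
      have h3 : algebraMap (integralClosure A N) N (c θ) = δN * θ := hc θ hθ
      rw [h2, h3, hrootN θ hθ]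
    exact h1
  -- the bad locus
  let P : integralClosure A N := ∏ p ∈ R.offDiag, (c p.1 - c p.2)
  have hP : P ≠ 0 := by
    rw [Finset.prod_ne_zero_iff]
    rintro ⟨x, y⟩ hxy
    rw [Finset.mem_offDiag] at hxy
    obtain ⟨hx, hy, hne⟩ := hxy
    rw [sub_ne_zero]
    intro h
    apply hne
    have h1 := congrArg Subtype.val h
    rw [hc x hx, hc y hy] at h1
    exact mul_left_cancel₀ hδN0 h1
  have hPalg : IsAlgebraic A P := by
    have h0 : Function.Injective (algebraMap (integralClosure A N) N) := Subtype.val_injective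
    rw [← isAlgebraic_algebraMap_iff h0]
    have h1 : IsIntegral A (algebraMap (integralClosure A N) N P) := P.2
    exact h1.isAlgebraic
  obtain ⟨d, hd0, hd⟩ := hPalg.exists_nonzero_dvd (mem_nonZeroDivisors_of_ne_zero hP)
  obtain ⟨b, Pg, hb0, hPg⟩ := Pool.Agent.H391R2.exists_clear (R := K[X]) g
  have hvPg : v Pg ≠ 0 := by
    intro h
    have h1 := hv Pg
    rw [h, map_zero, eq_comm, map_eq_zero_iff _ (IsFractionRing.injective (RatFunc K)[X] E)] at h1
    rw [hαdef, hPg] at h1
    rcases mul_eq_zero.1 h1 with h2 | h2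
    · rw [C_eq_zero, map_eq_zero_iff _ hαinj] at h2
      exact hb0 h2
    · exact hg h2
  obtain ⟨φ, Ω', j1, j2, j3, j4, j5, j6, π, j7, j8, γ', hφD, hφX, hπA, -, hσ, -⟩ :=
    place_line' K L (N ≃ₐ[E] N) α₀ (Option Unit) (some ()) E N (MulEquiv.refl _)
      (d * v Pg) (mul_ne_zero hd0 hvPg) hα₀ hregN
  rw [map_mul] at hφD
  have hφd : φ d ≠ 0 := left_ne_zero_of_mul hφD
  have hφg : φ (v Pg) ≠ 0 := right_ne_zero_of_mul hφD
  set a : RatFunc K := α (φ (MvPolynomial.X none)) with ha
  have hφv : ∀ q : K[X][X], α (φ (v q)) = (q.map α).eval a := by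
    intro q
    have h1 : (α.comp (φ : A →+* K[X])).comp v = (evalRingHom a).comp (mapRingHom α) := by
      apply Polynomial.ringHom_ext
      · intro p
        change α (φ (v (C p))) = ((C p).map α).eval a
        rw [hvC, ← aeval_algHom_apply, hφX, aeval_X_left_apply, Polynomial.map_C, eval_C]
      · change α (φ (v X)) = (X.map α).eval a
        rw [hvX, Polynomial.map_X, eval_X]
    exact RingHom.congr_fun h1 q
  refine ⟨a, ?_, ?_⟩
  · intro h
    apply hφg
    apply hαinj
    rw [hφv, map_zero, hαdef, hPg, eval_mul, h, mul_zero]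
  -- irreducibility
  set j : (RatFunc K)[X] →+* Ω' := (algebraMap (RatFunc K) Ω').comp (evalRingHom a) with hj
  have hπv : (π.comp (algebraMap A (integralClosure A N))).comp v = j.comp (mapRingHom α) := by
    apply RingHom.ext
    intro q
    change π (algebraMap A (integralClosure A N) (v q)) = algebraMap (RatFunc K) Ω'
      ((q.map α).eval a)
    rw [hπA, ← hφv]
  set s : Ω' := algebraMap (RatFunc K) Ω' (α δ) with hs
  have hs0 : s ≠ 0 := by
    rw [hs, Ne, map_eq_zero_iff _ (algebraMap (RatFunc K) Ω').injective]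
    exact hαδ
  have hjs : j (C (α δ)) = s := by
    rw [hj, RingHom.comp_apply, coe_evalRingHom, eval_C]
  let ρ : N → Ω' := fun θ => s⁻¹ * π (c θ)
  have hρ : ∀ θ, π (c θ) = s * ρ θ := fun θ => by
    change _ = s * (s⁻¹ * π (c θ))
    rw [← mul_assoc, mul_inv_cancel₀ hs0, one_mul]
  have hdeg : (f.map (evalRingHom a)).natDegree = R.card := by
    rw [hf.natDegree_map]
    have h1 := congrArg natDegree hR
    rw [hf.natDegree_map, natDegree_prod_of_monic _ _ (fun i _ => monic_X_sub_C _)] at h1
    simpa using h1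
  have hinjρ : ∀ x ∈ R, ∀ y ∈ R, ρ x = ρ y → x = y := by
    intro x hx y hy hxy
    by_contra hne
    have h1 : π (c x - c y) = 0 := by
      rw [map_sub, hρ, hρ, hxy, sub_self]
    have h2 : π P = 0 := by
      rw [map_prod]
      exact Finset.prod_eq_zero (Finset.mem_offDiag.2 ⟨hx, hy, hne⟩ :
        ((x, y) : N × N) ∈ R.offDiag) h1
    obtain ⟨e, he⟩ := hd
    have h3 := hπA d
    rw [he, map_mul, h2, zero_mul, eq_comm,
      map_eq_zero_iff _ (algebraMap (RatFunc K) Ω').injective, map_eq_zero_iff _ hαinj] at h3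
    exact hφd h3
  refine irred_of_conj (f.map (evalRingHom a)) (hf.map _) R hne hdeg ρ hinjρ ?_ ?_
  · intro θ hθ
    have h1 := congrArg π (hrootC θ hθ)
    rw [hom_eval₂, map_zero, eval₂_map, hπv, ← eval₂_map, hF, hρ, ← hjs,
      scaleRoots_eval₂_mul] at h1
    rcases mul_eq_zero.1 h1 with h2 | h2
    · rw [hjs] at h2
      exact absurd h2 (pow_ne_zero _ hs0)
    · rw [aeval_def, eval₂_map]
      exact h2
  · intro hsep x hx y hy
    obtain ⟨τ, hτ⟩ := htrans x hx y hy
    have hrx : aeval (ρ x) (f.map (evalRingHom a)) = 0 := by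
      have h1 := congrArg π (hrootC x hx)
      rw [hom_eval₂, map_zero, eval₂_map, hπv, ← eval₂_map, hF, hρ, ← hjs,
        scaleRoots_eval₂_mul] at h1
      rcases mul_eq_zero.1 h1 with h2 | h2
      · rw [hjs] at h2
        exact absurd h2 (pow_ne_zero _ hs0)
      · rw [aeval_def, eval₂_map]
        exact h2
    have hρsep : IsSeparable (RatFunc K) (ρ x) :=
      hsep.of_dvd (minpoly.dvd (RatFunc K) _ hrx)
    have hρmem : ρ x ∈ separableClosure (RatFunc K) Ω' := mem_separableClosure_iff.2 hρsep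
    have hsmem : s ∈ separableClosure (RatFunc K) Ω' :=
      (separableClosure (RatFunc K) Ω').algebraMap_mem _
    have hcmem : π (c x) ∈ separableClosure (RatFunc K) Ω' := by
      rw [hρ]
      exact mul_mem hsmem hρmem
    have h1 := hσ (γ'.symm τ) (c x) (c y) τ (by
      rw [MulEquiv.apply_symm_apply]
      rfl) (by rw [hc x hx, hc y hy, map_mul, hτδ, hτ]) hcmem
    set σ := γ'.symm τ
    have h2 : ((σ ⟨ρ x, hρmem⟩ : separableClosure (RatFunc K) Ω') : Ω') = ρ y := by
      have h3 : (⟨π (c x), hcmem⟩ : separableClosure (RatFunc K) Ω') =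
          algebraMap (RatFunc K) _ (α δ) * ⟨ρ x, hρmem⟩ := by
        apply Subtype.ext
        exact hρ x
      rw [h3, map_mul, AlgEquiv.commutes] at h1
      have h4 : s * ((σ ⟨ρ x, hρmem⟩ : separableClosure (RatFunc K) Ω') : Ω') = s * ρ y := by
        rw [← hρ y, ← h1]
        rfl
      exact mul_left_cancel₀ hs0 h4
    rw [← h2]
    have h5 : minpoly (RatFunc K) (ρ x) =
        minpoly (RatFunc K) (⟨ρ x, hρmem⟩ : separableClosure (RatFunc K) Ω') :=
      minpoly.algebraMap_eq (algebraMap (separableClosure (RatFunc K) Ω') Ω').injective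
        (⟨ρ x, hρmem⟩ : separableClosure (RatFunc K) Ω')
    rw [h5, ← minpoly.algEquiv_eq σ]
    have h6 := minpoly.aeval (RatFunc K) (σ ⟨ρ x, hρmem⟩)
    have h7 := congrArg (algebraMap (separableClosure (RatFunc K) Ω') Ω') h6
    rw [map_zero, ← aeval_algebraMap_apply] at h7
    exact h7

end Pool.Agent.Y140.HD
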