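import Mathlib
import Pool.Agent.Y140.HD.Core
import Pool.Agent.Y140.IG.HR

/-!
# `K(t)` is Hilbertian for every field `K`
-/

set_option autoImplicit false

namespace Pool.Agent.Y140.HD

open Polynomial
open Pool.Agent.H391R2.T4 (HilbField)

theorem hilb_ratFunc_inf (K : Type) [Field K] [Infinite K] : HilbField (RatFunc K) := by
  classical
  intro f hf hirr hsep g hg
  let E := FractionRing (RatFunc K)[X]
  let fK : E[X] := f.map (algebraMap (RatFunc K)[X] E)
  have hirrK : Irreducible fK := (hf.irreducible_iff_irreducible_map_fraction_map).1 hirr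
  have hfK : fK.Monic := hf.map _
  let N := fK.SplittingField
  have hsep : fK.Separable := hsep
  have hgal : IsGalois E N := IsGalois.of_separable_splitting_field (p := fK) hsep
  set R : Finset N := (fK.map (algebraMap E N)).roots.toFinset with hR
  have hnodup : (fK.map (algebraMap E N)).roots.Nodup := nodup_roots hsep.map
  have hsplit : (fK.map (algebraMap E N)).Splits := SplittingField.splits fK
  have hprod : f.map ((algebraMap E N).comp (algebraMap (RatFunc K)[X] E)) =
      ∏ α ∈ R, (X - C α) := by
    rw [← Polynomial.map_map]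
    change fK.map (algebraMap E N) = _
    conv_lhs => rw [hsplit.eq_prod_roots_of_monic (hfK.map _)]
    rw [Finset.prod_eq_multiset_prod, hR, Multiset.toFinset_val, Multiset.dedup_eq_self.2 hnodup]
  have hRroot : ∀ α ∈ R, aeval α fK = 0 := by
    intro α hα
    rw [hR, Multiset.mem_toFinset, mem_roots (hfK.map _).ne_zero, IsRoot.def,
      eval_map_algebraMap] at hα
    exact hα
  have htrans : ∀ α ∈ R, ∀ β ∈ R, ∃ σ : N ≃ₐ[E] N, σ α = β := by
    intro α hα β hβ
    have h1 : minpoly E α = fK :=
      (minpoly.eq_of_irreducible_of_monic hirrK (hRroot α hα) hfK).symm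
    have h2 : minpoly E β = fK :=
      (minpoly.eq_of_irreducible_of_monic hirrK (hRroot β hβ) hfK).symm
    have h3 : IsConjRoot E β α := by
      unfold IsConjRoot
      rw [h1, h2]
    exact (isConjRoot_iff_exists_algEquiv.1 h3)
  have hne : R.Nonempty := by
    rw [Finset.nonempty_iff_ne_empty]
    intro h
    rw [h, Finset.prod_empty] at hprod
    have h1 := congrArg natDegree hprod
    rw [hf.natDegree_map, natDegree_one] at h1
    apply hirr.not_isUnit
    rw [hf.natDegree_eq_zero.1 h1]
    exact isUnit_one
  exact core E N f hf R hne hprod htrans g hg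

/-- `K(t)` is Hilbertian for every field `K`. -/
theorem hilb_ratFunc (K : Type) [Field K] : HilbField (RatFunc K) := by
  rcases finite_or_infinite K with h | h
  · exact Pool.Agent.Y140.IG.hilb_ratFunc K
  · exact hilb_ratFunc_inf K

end Pool.Agent.Y140.HD
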